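/-
helper26. MAD: concatenation (CAT).
-/
import Pool.Agent.H20.MAD.Def

set_option autoImplicit false

namespace Pool.MAD

open Finset
open scoped Classical

namespace H26

theorem mem_ch {V : Type} [Fintype V] {n : ℕ} {y : List V} :
    y ∈ ch V n ↔ y.length ≤ n ∧ y ≠ [] := by
  simp [ch]

/-- a chain is cut in two chains -/
theorem split_sum {V : Type} [Fintype V] (n : ℕ) (F : List V → List V → ℝ)
    (hF : ∀ a b, 0 ≤ F a b) :
    ∑ y ∈ ch V n, ∑ i ∈ Ioo 0 y.length, F (y.take i) (y.drop i) ≤
      ∑ a ∈ ch V n, ∑ b ∈ ch V n, F a b := by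
  rw [Finset.sum_sigma' (ch V n) (fun y => Ioo 0 y.length)
    (fun y i => F (y.take i) (y.drop i)), ← Finset.sum_product']
  have hinj : Set.InjOn (fun x : (Σ _ : List V, ℕ) => (x.1.take x.2, x.1.drop x.2))
      (((ch V n).sigma (fun y => Ioo 0 y.length) : Finset (Σ _ : List V, ℕ)) :
        Set (Σ _ : List V, ℕ)) := by
    rintro ⟨y, i⟩ hx ⟨y', i'⟩ hx' h
    simp only [coe_sigma, Set.mem_sigma_iff, mem_coe, mem_Ioo] at hx hx'
    simp only [Prod.mk.injEq] at h
    have h1 : y = y' := by
      rw [← List.take_append_drop i y, ← List.take_append_drop i' y', h.1, h.2]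
    have h2 : i = i' := by
      have := congrArg List.length h.1
      simp only [List.length_take] at this
      omega
    subst h1 h2
    rfl
  rw [← Finset.sum_image (f := fun p : List V × List V => F p.1 p.2) hinj]
  refine sum_le_sum_of_subset_of_nonneg ?_ fun p _ _ => hF _ _
  intro p hp
  simp only [mem_image, mem_sigma, mem_Ioo] at hp
  obtain ⟨⟨y, i⟩, ⟨hy, h0, h1⟩, rfl⟩ := hp
  rw [mem_ch] at hy
  simp only at h0 h1 hy
  rw [mem_product, mem_ch, mem_ch]
  refine ⟨⟨?_, ?_⟩, ?_, ?_⟩
  · simp only [List.length_take]; omega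
  · intro h
    have := congrArg List.length h
    simp only [List.length_take, List.length_nil] at this
    omega
  · simp only [List.length_drop]; omega
  · intro h
    have := congrArg List.length h
    simp only [List.length_drop, List.length_nil] at this
    omega

theorem half_sum (p : ℕ) : ∑ i ∈ Ioo 0 p, (1 / 2 : ℝ) ^ i ≤ 1 := by
  rcases Nat.eq_zero_or_pos p with h | h
  · subst h; simp
  · have h1 : ∑ i ∈ range p, (1 / 2 : ℝ) ^ i ≤ 2 := by
      have := sum_geometric_two_le p
      simpa using this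
    have h2 : range p = insert 0 (Ioo 0 p) := by
      ext i
      simp only [mem_range, mem_insert, mem_Ioo]
      omega
    rw [h2, sum_insert (by simp)] at h1
    simp only [pow_zero] at h1
    linarith

theorem cs_half (p : ℕ) (X : ℕ → ℝ) :
    (∑ i ∈ Ioo 0 p, X i) ^ 2 ≤ ∑ i ∈ Ioo 0 p, 2 ^ i * X i ^ 2 := by
  have h1 : (∑ i ∈ Ioo 0 p, X i) ^ 2 ≤
      (∑ i ∈ Ioo 0 p, (1 / 2 : ℝ) ^ i) * ∑ i ∈ Ioo 0 p, 2 ^ i * X i ^ 2 := by
    refine Finset.sum_sq_le_sum_mul_sum_of_sq_le_mul _ (fun i _ => by positivity)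
      (fun i _ => by positivity) fun i _ => ?_
    rw [← mul_assoc, ← mul_pow]
    norm_num
  refine h1.trans ?_
  have h2 := half_sum p
  have h3 : 0 ≤ ∑ i ∈ Ioo 0 p, (2 : ℝ) ^ i * X i ^ 2 :=
    sum_nonneg fun i _ => by positivity
  nlinarith

end H26

open H26

theorem t_cat (hC : CNTStmt) (hW : WLKStmt) (hH : HILStmt) (hM : MINStmt) : CATStmt := by
  intro V _ N n A ρ B' B T' T u Q hN hA hρ hAρ hB hT hu hQ hE
  obtain ⟨cnn, capp, clen, ctake, cmem, cone, csum⟩ := hC V
  obtain ⟨wne, wlen, wtake, wcat, wreg, wend, wuniv⟩ := hW V N hN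
  obtain ⟨hn0, hadd, hsub, hcomm, hsc, hpar, hmix, hvar, htr, hmon⟩ := hH V n A hA.le
  obtain ⟨W', hW'⟩ : ∃ W', W' = Wk N B' T' u := ⟨_, rfl⟩
  obtain ⟨W, hWd⟩ : ∃ W, W = Wk N B T u := ⟨_, rfl⟩
  obtain ⟨S, hS⟩ : ∃ S : List V → Finset (List V), S = fun w =>
    if lst u w ∈ B then Wk N B (T - w.length) (lst u w) else {[]} := ⟨_, rfl⟩
  obtain ⟨R, hR⟩ : ∃ R : List V → List V → ℝ, R = fun w =>
    if lst u w ∈ B then mp n A (Wk N B (T - w.length) (lst u w))
      else fun l => if l = [] then 1 else 0 := ⟨_, rfl⟩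
  obtain ⟨g, hgd⟩ : ∃ g : List V → List V → ℝ, g = fun w =>
    mv N n A B (T - w.length) (lst u w) := ⟨_, rfl⟩
  rw [← hW'] at hQ hE ⊢
  rw [← hWd]
  have hPl : ∀ w, Pln (S w) (R w) := by
    intro w
    by_cases h : lst u w ∈ B
    · simp only [hS, hR, if_pos h]
      exact (hM V n A _ hA.le (wne B _ _)).1
    · simp only [hS, hR, if_neg h]
      refine ⟨fun l => ?_, fun l hl => ?_, ?_⟩
      · split_ifs <;> norm_num
      · rw [mem_singleton] at hl
        rw [if_neg hl]
      · simp
  have hg : ∀ w y, y ≠ [] → cv (S w) (R w) y = g w y := by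
    intro w y hy
    by_cases h : lst u w ∈ B
    · simp only [hS, hR, hgd, mv, if_pos h]
    · simp only [hS, hR, hgd, mv, if_neg h, cv]
      obtain ⟨a, l, rfl⟩ := List.exists_cons_of_ne_nil hy
      simp [cnt]
  have hg0 : ∀ w, cv (S w) (R w) [] = 1 := by
    intro w
    unfold cv
    simp only [cnt, mul_one]
    exact (hPl w).tot
  have hSW : ∀ w ∈ W', ∀ w' ∈ S w, w ++ w' ∈ W := by
    intro w hw w' hw'
    rw [hW'] at hw
    obtain ⟨h1, h2⟩ := wcat B' B T' T u hB hT hu w hw
    rw [hWd]
    by_cases h : lst u w ∈ B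
    · simp only [hS, if_pos h] at hw'
      exact h1 h w' hw'
    · simp only [hS, if_neg h, mem_singleton] at hw'
      subst hw'
      simpa using h2 h
  -- the concatenated plan
  obtain ⟨C, hCd⟩ : ∃ C : List V → ℝ, C = fun x =>
    ∑ w ∈ W', ∑ w' ∈ S w, if w ++ w' = x then Q w * R w w' else 0 := ⟨_, rfl⟩
  have hCs : ∀ F : List V → ℝ, ∑ x ∈ W, C x * F x =
      ∑ w ∈ W', ∑ w' ∈ S w, Q w * R w w' * F (w ++ w') := by
    intro F
    simp only [hCd, sum_mul]
    rw [sum_comm]
    refine sum_congr rfl fun w hw => ?_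
    rw [sum_comm]
    refine sum_congr rfl fun w' hw' => ?_
    rw [Finset.sum_eq_single (w ++ w')]
    · simp
    · intro b _ hb
      rw [if_neg (Ne.symm hb), zero_mul]
    · intro h
      exact absurd (hSW w hw w' hw') h
  have hCP : Pln W C := by
    refine ⟨fun x => ?_, fun x hx => ?_, ?_⟩
    · rw [hCd]
      refine sum_nonneg fun w _ => sum_nonneg fun w' _ => ?_
      split_ifs
      · exact mul_nonneg (hQ.nn w) ((hPl w).nn w')
      · exact le_rfl
    · rw [hCd]
      refine sum_eq_zero fun w hw => sum_eq_zero fun w' hw' => ?_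
      rw [if_neg]
      intro h
      exact hx (h ▸ hSW w hw w' hw')
    · have h1 := hCs (fun _ => 1)
      simp only [mul_one] at h1
      rw [h1]
      have h2 : ∀ w ∈ W', ∑ w' ∈ S w, Q w * R w w' = Q w := by
        intro w _
        rw [← mul_sum, (hPl w).tot, mul_one]
      rw [sum_congr rfl h2]
      exact hQ.tot
  -- the splitting of the chain numbers
  obtain ⟨X, hX⟩ : ∃ X : List V → List V → ℝ, X = fun a b =>
    ∑ w ∈ W', Q w * cnt a w * g w b := ⟨_, rfl⟩
  have hcv : ∀ y : List V, y ≠ [] → cv W C y - ∑ w ∈ W', Q w * g w y =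
      cv W' Q y + ∑ i ∈ Ioo 0 y.length, X (y.take i) (y.drop i) := by
    intro y hy
    have hl : 0 < y.length := List.length_pos_of_ne_nil hy
    have h1 : cv W C y = ∑ i ∈ range (y.length + 1),
        ∑ w ∈ W', Q w * cnt (y.take i) w * cv (S w) (R w) (y.drop i) := by
      unfold cv
      rw [hCs]
      simp only [mul_sum]
      rw [sum_comm]
      refine sum_congr rfl fun w _ => ?_
      rw [sum_comm]
      refine sum_congr rfl fun w' _ => ?_
      rw [capp, mul_sum]
      refine sum_congr rfl fun i _ => ?_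
      ring
    have h2 : range (y.length + 1) = insert 0 (insert y.length (Ioo 0 y.length)) := by
      ext i
      simp only [mem_range, mem_insert, mem_Ioo]
      omega
    have h3 : (0 : ℕ) ∉ insert y.length (Ioo 0 y.length) := by
      simp only [mem_insert, mem_Ioo]
      omega
    have h4 : y.length ∉ Ioo 0 y.length := by
      simp only [mem_Ioo]
      omega
    rw [h1, h2, sum_insert h3, sum_insert h4]
    have h5 : ∑ w ∈ W', Q w * cnt (y.take 0) w * cv (S w) (R w) (y.drop 0) =
        ∑ w ∈ W', Q w * g w y := by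
      refine sum_congr rfl fun w _ => ?_
      rw [List.take_zero, List.drop_zero, hg w y hy]
      simp [cnt]
    have h6 : ∑ w ∈ W', Q w * cnt (y.take y.length) w * cv (S w) (R w) (y.drop y.length) =
        cv W' Q y := by
      unfold cv
      refine sum_congr rfl fun w _ => ?_
      have := hg0 w
      unfold cv at this
      rw [List.take_length, List.drop_length, this, mul_one]
    have h7 : ∑ i ∈ Ioo 0 y.length,
        ∑ w ∈ W', Q w * cnt (y.take i) w * cv (S w) (R w) (y.drop i) =
        ∑ i ∈ Ioo 0 y.length, X (y.take i) (y.drop i) := by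
      refine sum_congr rfl fun i hi => ?_
      rw [hX]
      refine sum_congr rfl fun w _ => ?_
      rw [hg]
      intro h
      have := congrArg List.length h
      simp only [List.length_drop, List.length_nil] at this
      rw [mem_Ioo] at hi
      omega
    rw [h5, h6, h7]
    ring
  -- the estimate of the cross terms
  have hcr : En n A (fun y : List V => ∑ i ∈ Ioo 0 y.length, X (y.take i) (y.drop i)) ≤
      En n (2 * A) (cv W' Q) := by
    have e1 : En n A (fun y : List V => ∑ i ∈ Ioo 0 y.length, X (y.take i) (y.drop i)) ≤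
        ∑ y ∈ ch V n, ∑ i ∈ Ioo 0 y.length,
          (fun a b : List V => A ^ (a.length + b.length - 1) * (2 ^ a.length * X a b ^ 2))
            (y.take i) (y.drop i) := by
      unfold En
      refine sum_le_sum fun y _ => ?_
      rw [show ∑ i ∈ Ioo 0 y.length,
          (fun a b : List V => A ^ (a.length + b.length - 1) * (2 ^ a.length * X a b ^ 2))
            (y.take i) (y.drop i) =
          A ^ (y.length - 1) * ∑ i ∈ Ioo 0 y.length,
            2 ^ i * X (y.take i) (y.drop i) ^ 2 from ?_]
      · exact mul_le_mul_of_nonneg_left (cs_half _ _) (by positivity)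
      · rw [mul_sum]
        refine sum_congr rfl fun i hi => ?_
        rw [mem_Ioo] at hi
        have l1 : (y.take i).length = i := by
          rw [List.length_take]; omega
        have l2 : (y.drop i).length = y.length - i := List.length_drop
        simp only [l1, l2]
        rw [show i + (y.length - i) - 1 = y.length - 1 by omega]
    refine e1.trans ?_
    refine (split_sum (V := V) n
      (fun a b : List V => A ^ (a.length + b.length - 1) * (2 ^ a.length * X a b ^ 2))
      fun a b => by positivity).trans ?_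
    unfold En
    refine sum_le_sum fun a ha => ?_
    rw [mem_ch] at ha
    have hal : 0 < a.length := List.length_pos_of_ne_nil ha.2
    have e2 : ∑ b ∈ ch V n, A ^ (a.length + b.length - 1) * (2 ^ a.length * X a b ^ 2) =
        (2 * A) ^ a.length * En n A (X a) := by
      unfold En
      rw [mul_sum]
      refine sum_congr rfl fun b hb => ?_
      rw [mem_ch] at hb
      have hbl : 0 < b.length := List.length_pos_of_ne_nil hb.2
      rw [show a.length + b.length - 1 = a.length + (b.length - 1) by omega, pow_add, mul_pow]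
      ring
    rw [e2]
    have e3 : nm n A (X a) ≤ cv W' Q a * Real.sqrt ρ := by
      have e4 := hmix (List V) W' (fun w => Q w * cnt a w) g
        (fun w _ => mul_nonneg (hQ.nn w) (cnn a w))
      rw [hX]
      refine e4.trans ?_
      unfold cv
      rw [sum_mul]
      refine sum_le_sum fun w hw => ?_
      refine mul_le_mul_of_nonneg_left ?_ (mul_nonneg (hQ.nn w) (cnn a w))
      unfold nm
      refine Real.sqrt_le_sqrt ?_
      rw [hgd]
      exact hE w hw
    have e5 : En n A (X a) ≤ cv W' Q a ^ 2 * ρ := by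
      have e6 : En n A (X a) = nm n A (X a) ^ 2 := (Real.sq_sqrt (hn0 _)).symm
      have e7 : cv W' Q a ^ 2 * ρ = (cv W' Q a * Real.sqrt ρ) ^ 2 := by
        rw [mul_pow, Real.sq_sqrt hρ]
      rw [e6, e7]
      exact pow_le_pow_left₀ (Real.sqrt_nonneg _) e3 2
    have e8 : (2 * A) ^ a.length = (2 * A) ^ (a.length - 1) * (2 * A) := by
      rw [← pow_succ]
      congr 1
      omega
    have e9 : 0 ≤ cv W' Q a ^ 2 := sq_nonneg _
    have e10 : (0 : ℝ) ≤ (2 * A) ^ (a.length - 1) := by positivity
    calc (2 * A) ^ a.length * En n A (X a) ≤ (2 * A) ^ a.length * (cv W' Q a ^ 2 * ρ) :=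
          mul_le_mul_of_nonneg_left e5 (by positivity)
      _ = (2 * A) ^ (a.length - 1) * (cv W' Q a ^ 2 * (2 * A * ρ)) := by
          rw [e8]; ring
      _ ≤ (2 * A) ^ (a.length - 1) * (cv W' Q a ^ 2 * 1) :=
          mul_le_mul_of_nonneg_left (mul_le_mul_of_nonneg_left hAρ e9) e10
      _ = (2 * A) ^ (a.length - 1) * cv W' Q a ^ 2 := by ring
  refine ⟨C, hCP, ?_⟩
  have hfin : nm n A (fun y : List V => cv W C y - ∑ w ∈ W', Q w * g w y) =
      nm n A (fun y : List V =>
        cv W' Q y + ∑ i ∈ Ioo 0 y.length, X (y.take i) (y.drop i)) := by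
    unfold nm En
    congr 1
    refine sum_congr rfl fun y hy => ?_
    rw [mem_ch] at hy
    simp only
    rw [hcv y hy.2]
  have hgo : nm n A (fun y => cv W C y -
      ∑ w ∈ W', Q w * mv N n A B (T - w.length) (lst u w) y) =
      nm n A (fun y => cv W C y - ∑ w ∈ W', Q w * g w y) := by rw [hgd]
  rw [hgo, hfin]
  have f1 := hadd (cv W' Q) (fun y : List V => ∑ i ∈ Ioo 0 y.length, X (y.take i) (y.drop i))
  have f2 : nm n A (cv W' Q) ≤ nm n (2 * A) (cv W' Q) :=
    Real.sqrt_le_sqrt (hmon (2 * A) _ (by linarith))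
  have f3 : nm n A (fun y : List V => ∑ i ∈ Ioo 0 y.length, X (y.take i) (y.drop i)) ≤
      nm n (2 * A) (cv W' Q) := Real.sqrt_le_sqrt hcr
  linarith

end Pool.MAD
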